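import Mathlib
import Pool.Agent.R243.Erg.Dom

set_option autoImplicit false

/-!
# Ergodic Lebesgue differentiation from the Lebesgue differentiation property alone

The answer to Q1 is yes. The maximal function `sup_k A_k |f|` of an `L^p` function, `p > 1`, is
integrable, so that `G_K = sup_{k ≥ K} |A_k f - f*|` is integrable; the Lebesgue differentiation
property is applied to the countably many functions `G_K` and to `f*`.
-/

namespace Pool.Agent.Results.MP_894476_an.JointLimit

open Filter Topology MeasureTheory Set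
open scoped ENNReal NNReal

/-- `μ` has the Lebesgue differentiation property: for every integrable `f` the averages of `f`
over the balls `B(x, r)` tend to `f x` as `r ↘ 0`, for `μ`-almost every `x`. -/
def LebesgueDifferentiation {X : Type*} [MetricSpace X] [MeasurableSpace X] (μ : Measure X) : Prop :=
  ∀ f : X → ℝ, Integrable f μ →
    ∀ᵐ x ∂μ, Tendsto (fun r : ℝ => ⨍ y in Metric.ball x r, f y ∂μ) (𝓝[>] 0) (𝓝 (f x))

/-- The ergodic average `A_k f = (1/k) Σ_{j<k} f ∘ T^j`. -/
noncomputable def ergAvg {X : Type*} (T : X → X) (k : ℕ) (f : X → ℝ) (x : X) : ℝ :=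
  (1 / (k : ℝ)) * ∑ j ∈ Finset.range k, f (T^[j] x)

theorem ergAvg_eq {X : Type*} [MeasurableSpace X] (T : X → X) (k : ℕ) (f : X → ℝ) :
    ergAvg T k f = R243.Erg.av T k f := by
  ext x
  unfold ergAvg R243.Erg.av
  rw [one_div]

/-- the case of a measurable function -/
theorem main {X : Type*} [MetricSpace X] [MeasurableSpace X] [BorelSpace X] (μ : Measure X)
    [IsProbabilityMeasure μ] (hμ : LebesgueDifferentiation μ) {T : X → X}
    (hT : MeasurePreserving T μ μ) {p : ℝ} (hp : 1 < p) {f : X → ℝ} (hf : Measurable f)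
    (hfi : Integrable f μ) (hfp : Integrable (fun y => |f y| ^ p) μ) :
    ∀ᵐ x ∂μ, Tendsto (fun q : ℝ × ℕ => ⨍ y in Metric.ball x q.1, ergAvg T q.2 f y ∂μ)
      (𝓝[>] 0 ×ˢ atTop) (𝓝 ((μ[f | MeasurableSpace.invariants T]) x)) := by
  simp only [ergAvg_eq]
  set E : X → ℝ := μ[f | MeasurableSpace.invariants T] with hE
  have hEi : Integrable E μ := integrable_condExp
  have hEm : Measurable E := (stronglyMeasurable_condExp.mono
    (MeasurableSpace.invariants_le T)).measurable
  -- the tails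
  set g : ℕ → X → ℝ≥0∞ := fun K x => ⨆ k : ℕ, ENNReal.ofReal |R243.Erg.av T (K + k) f x - E x|
    with hg
  have hgm : ∀ K, Measurable (g K) := fun K =>
    Measurable.iSup fun k =>
      (((R243.Erg.av_meas hT.measurable hf (K + k)).sub hEm).abs).ennreal_ofReal
  have hgle : ∀ K x, g K x ≤ R243.Erg.mxf T f x + ENNReal.ofReal |E x| := by
    intro K x
    refine iSup_le fun k => ?_
    calc ENNReal.ofReal |R243.Erg.av T (K + k) f x - E x| ≤
          ENNReal.ofReal (R243.Erg.av T (K + k) (fun z => |f z|) x + |E x|) := by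
          apply ENNReal.ofReal_le_ofReal
          have h1 := abs_sub (R243.Erg.av T (K + k) f x) (E x)
          have h2 := R243.Erg.av_abs_le T (K + k) f x
          linarith
      _ ≤ ENNReal.ofReal (R243.Erg.av T (K + k) (fun z => |f z|) x) + ENNReal.ofReal |E x| :=
          ENNReal.ofReal_add_le
      _ ≤ _ := by
          gcongr
          exact le_iSup (fun k => ENNReal.ofReal (R243.Erg.av T k (fun z => |f z|) x)) (K + k)
  have hgfin : ∀ K, ∫⁻ x, g K x ∂μ ≠ ⊤ := by
    intro K
    refine ne_top_of_le_ne_top ?_ (lintegral_mono (hgle K))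
    rw [lintegral_add_right _ hEm.abs.ennreal_ofReal]
    refine ENNReal.add_ne_top.2 ⟨R243.Erg.mxf_lintegral hT hf hp hfp, ?_⟩
    exact (hEi.abs.lintegral_lt_top).ne
  set G : ℕ → X → ℝ := fun K x => (g K x).toReal with hG
  have hGi : ∀ K, Integrable (G K) μ := fun K =>
    integrable_toReal_of_lintegral_ne_top (hgm K).aemeasurable (hgfin K)
  have hfin : ∀ K, ∀ᵐ x ∂μ, g K x < ⊤ := fun K => ae_lt_top (hgm K) (hgfin K)
  have hle : ∀ K k, K ≤ k → ∀ᵐ x ∂μ, |R243.Erg.av T k f x - E x| ≤ G K x := by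
    intro K k hk
    filter_upwards [hfin K] with x hx
    obtain ⟨j, rfl⟩ := Nat.exists_eq_add_of_le hk
    have h1 : ENNReal.ofReal |R243.Erg.av T (K + j) f x - E x| ≤ g K x :=
      le_iSup (fun k => ENNReal.ofReal |R243.Erg.av T (K + k) f x - E x|) j
    have h2 := ENNReal.toReal_mono hx.ne h1
    rwa [ENNReal.toReal_ofReal (abs_nonneg _)] at h2
  have hD1 : ∀ᵐ x ∂μ, ∀ K, Tendsto (fun r : ℝ => ⨍ y in Metric.ball x r, G K y ∂μ) (𝓝[>] 0)
      (𝓝 (G K x)) := by
    rw [ae_all_iff]
    exact fun K => hμ (G K) (hGi K)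
  have hD2 := hμ E hEi
  have hB := R243.Erg.birkhoff_L1 hT hf hfi
  filter_upwards [hD1, hD2, hB] with x h1 h2 h3
  rw [Metric.tendsto_nhds]
  intro ε hε
  -- choose `K` with `G_K x` small
  have h4 : ∃ K, G K x < ε / 2 := by
    rw [Metric.tendsto_atTop] at h3
    obtain ⟨K, hK⟩ := h3 (ε / 4) (by positivity)
    refine ⟨K, ?_⟩
    have h5 : g K x ≤ ENNReal.ofReal (ε / 4) := by
      refine iSup_le fun k => ENNReal.ofReal_le_ofReal ?_
      have := hK (K + k) (by omega)
      rw [Real.dist_eq] at this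
      exact this.le
    have h6 := ENNReal.toReal_mono ENNReal.ofReal_ne_top h5
    rw [ENNReal.toReal_ofReal (by positivity)] at h6
    have h7 : G K x ≤ ε / 4 := h6
    linarith
  obtain ⟨K, hK⟩ := h4
  have h5 : ∀ᶠ r : ℝ in 𝓝[>] 0, ⨍ y in Metric.ball x r, G K y ∂μ < ε / 2 :=
    (h1 K).eventually_lt_const hK
  have h6 : ∀ᶠ r : ℝ in 𝓝[>] 0, |(⨍ y in Metric.ball x r, E y ∂μ) - E x| < ε / 2 := by
    have := (Metric.tendsto_nhds.1 h2) (ε / 2) (by positivity)
    simpa only [Real.dist_eq] using this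
  have h7 := (h5.and h6).prod_mk (eventually_ge_atTop K)
  filter_upwards [h7] with q hq
  obtain ⟨⟨h8, h9⟩, h10⟩ := hq
  rw [Real.dist_eq]
  have h11 : |(⨍ y in Metric.ball x q.1, R243.Erg.av T q.2 f y ∂μ) -
      ⨍ y in Metric.ball x q.1, E y ∂μ| ≤ ⨍ y in Metric.ball x q.1, G K y ∂μ := by
    rw [setAverage_eq, setAverage_eq, setAverage_eq, ← smul_sub,
      ← integral_sub (R243.Erg.av_int hT hfi _).integrableOn hEi.integrableOn, smul_eq_mul,
      smul_eq_mul, abs_mul, abs_of_nonneg (inv_nonneg.2 measureReal_nonneg)]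
    refine mul_le_mul_of_nonneg_left ?_ (inv_nonneg.2 measureReal_nonneg)
    refine (abs_integral_le_integral_abs).trans ?_
    refine integral_mono_ae ((R243.Erg.av_int hT hfi _).sub hEi).abs.integrableOn
      (hGi K).integrableOn ?_
    exact ae_restrict_of_ae (hle K q.2 h10)
  calc _ ≤ |(⨍ y in Metric.ball x q.1, R243.Erg.av T q.2 f y ∂μ) -
        ⨍ y in Metric.ball x q.1, E y ∂μ| + |(⨍ y in Metric.ball x q.1, E y ∂μ) - E x| :=
        abs_sub_le _ _ _
    _ < ε := by linarith

/-- **Ergodic Lebesgue differentiation.** Let `μ` be a Borel probability measure on a metric space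
which has the Lebesgue differentiation property. Then for every `μ`-preserving `T`, every `p > 1`
and every `f ∈ L^p(μ)` the averages of `A_k f` over `B(x, r)` tend to `f* x = E[f | ℑ] x`, jointly
as `r ↘ 0` and `k → ∞`, for `μ`-almost every `x`. -/
theorem result {X : Type*} [MetricSpace X] [MeasurableSpace X] [BorelSpace X] (μ : Measure X)
    [IsProbabilityMeasure μ] (hμ : LebesgueDifferentiation μ) (T : X → X)
    (hT : MeasurePreserving T μ μ) (p : ℝ≥0∞) (hp : 1 < p) (f : X → ℝ) (hf : MemLp f p μ) :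
    ∀ᵐ x ∂μ, Tendsto (fun q : ℝ × ℕ => ⨍ y in Metric.ball x q.1, ergAvg T q.2 f y ∂μ)
      (𝓝[>] 0 ×ˢ atTop) (𝓝 ((μ[f | MeasurableSpace.invariants T]) x)) := by
  set f' : X → ℝ := hf.1.aemeasurable.mk f with hf'
  have hfm : Measurable f' := hf.1.aemeasurable.measurable_mk
  have hae : f =ᵐ[μ] f' := hf.1.aemeasurable.ae_eq_mk
  have hfp' : MemLp f' p μ := hf.ae_eq hae
  set r : ℝ≥0∞ := min p 2 with hr
  have hr1 : 1 < r := lt_min hp (by norm_num)
  have hr2 : r ≠ ⊤ := ne_top_of_le_ne_top (by norm_num) (min_le_right p 2)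
  have hr0 : r ≠ 0 := (lt_trans zero_lt_one hr1).ne'
  have hfr : MemLp f' r μ := hfp'.mono_exponent (min_le_left _ _)
  have hrr : 1 < r.toReal := by
    have := (ENNReal.toReal_lt_toReal ENNReal.one_ne_top hr2).2 hr1
    simpa using this
  have hint : Integrable (fun y => |f' y| ^ r.toReal) μ := by
    have := hfr.integrable_norm_rpow hr0 hr2
    simpa only [Real.norm_eq_abs] using this
  have hi : Integrable f' μ := hfr.integrable hr1.le
  have key := main μ hμ hT hrr hfm hi hint
  have havg : ∀ k, ergAvg T k f =ᵐ[μ] ergAvg T k f' := by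
    intro k
    have h1 : ∀ᵐ x ∂μ, ∀ j : ℕ, f (T^[j] x) = f' (T^[j] x) := by
      rw [ae_all_iff]
      intro j
      exact (hT.iterate j).quasiMeasurePreserving.ae_eq_comp hae
    filter_upwards [h1] with x hx
    unfold ergAvg
    simp only [hx]
  have hce : μ[f | MeasurableSpace.invariants T] =ᵐ[μ] μ[f' | MeasurableSpace.invariants T] :=
    condExp_congr_ae hae
  filter_upwards [key, hce] with x h1 h2
  rw [h2]
  refine h1.congr fun q => ?_
  exact (average_congr (ae_restrict_of_ae (havg q.2))).symm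

end Pool.Agent.Results.MP_894476_an.JointLimit
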